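import Mathlib
import Pool.Agent.Q76.HM.Stm

/-!
# FAM: the norm of a superposition of horospherical functions
-/

set_option autoImplicit false

open MeasureTheory Filter Topology Set
open scoped ENNReal

namespace Pool.Agent.Q111.HM

open Pool.Agent.Q76.HM

/-- the mass of the Poisson kernel to the power `q` -/
noncomputable def JJ (q : ℝ) : ℝ≥0∞ := ∫⁻ w : ℂ, ENNReal.ofReal ((1 + ‖w‖ ^ 2) ^ (-q))

lemma JJ_ne_top {q : ℝ} (hq : 1 < q) : JJ q ≠ ⊤ := by
  have h1 : (Module.finrank ℝ ℂ : ℝ) < 2 * q := by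
    rw [Complex.finrank_real_complex]; push_cast; linarith
  have h2 := integrable_rpow_neg_one_add_norm_sq (μ := (volume : Measure ℂ)) h1
  have h3 : (-(2 * q) / 2) = -q := by ring
  rw [h3] at h2
  have h4 := h2.lintegral_lt_top
  exact h4.ne

lemma Pk_int (q : ℝ) (y : ℂ × ℝ) :
    ∫⁻ b : ℂ, ENNReal.ofReal (Pk b y ^ q) = ENNReal.ofReal (Real.exp y.2 ^ (2 - q)) * JJ q := by
  set t : ℝ := Real.exp y.2 with ht
  have ht0 : 0 < t := Real.exp_pos _
  set F : ℂ → ℝ≥0∞ := fun u => ENNReal.ofReal ((t / (‖u‖ ^ 2 + t ^ 2)) ^ q) with hF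
  have hFm : Measurable F := by
    rw [hF]
    fun_prop
  have h1 : ∫⁻ b : ℂ, ENNReal.ofReal (Pk b y ^ q) = ∫⁻ b : ℂ, F ((t : ℂ) * y.1 - b) := rfl
  rw [h1, lintegral_sub_left_eq_self F]
  have h2 := Measure.map_addHaar_smul (volume : Measure ℂ) ht0.ne'
  have h3 : ∫⁻ w : ℂ, F (t • w) = ∫⁻ u, F u ∂(Measure.map (fun w : ℂ => t • w) volume) :=
    (lintegral_map hFm (measurable_const_smul t)).symm
  rw [h2, lintegral_smul_measure, Complex.finrank_real_complex] at h3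
  have h4 : ENNReal.ofReal |(t ^ 2)⁻¹| ≠ 0 := by
    rw [ne_eq, ENNReal.ofReal_eq_zero, not_le]; positivity
  have h5 : ∀ w : ℂ, F (t • w) = ENNReal.ofReal (t ^ (-q)) * ENNReal.ofReal ((1 + ‖w‖ ^ 2) ^ (-q)) := by
    intro w
    rw [hF]
    simp only
    rw [← ENNReal.ofReal_mul (by positivity)]
    congr 1
    have h6 : t / (‖t • w‖ ^ 2 + t ^ 2) = t⁻¹ * (1 + ‖w‖ ^ 2)⁻¹ := by
      rw [norm_smul, Real.norm_of_nonneg ht0.le]
      field_simp
      ring
    rw [h6, Real.mul_rpow (by positivity) (by positivity), Real.inv_rpow ht0.le,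
      Real.inv_rpow (by positivity), Real.rpow_neg ht0.le, Real.rpow_neg (by positivity)]
  simp_rw [h5] at h3
  rw [lintegral_const_mul _ (by fun_prop)] at h3
  rw [smul_eq_mul] at h3
  have h7 : ∫⁻ u, F u = ENNReal.ofReal (t ^ 2) *
      (ENNReal.ofReal (t ^ (-q)) * ∫⁻ w : ℂ, ENNReal.ofReal ((1 + ‖w‖ ^ 2) ^ (-q))) := by
    rw [h3, ← mul_assoc, ← ENNReal.ofReal_mul (by positivity), abs_of_pos (by positivity),
      mul_inv_cancel₀ (by positivity), ENNReal.ofReal_one, one_mul]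
  rw [h7, ← mul_assoc, ← ENNReal.ofReal_mul (by positivity)]
  congr 2
  rw [← Real.rpow_natCast t 2, ← Real.rpow_add ht0]
  congr 1

lemma Pk_y_int (h : S_ISO) (γ : ℝ) (b : ℂ) (r : ℝ) (H : ℝ → ℝ≥0∞) (hH : Measurable H) :
    ∫⁻ y : ℂ × ℝ, ENNReal.ofReal (Real.exp y.2 ^ (1 + γ) * Pk b y ^ (1 + γ)) *
      H (Real.log (Pk b y) - r) = JJ (1 + γ) * ∫⁻ σ, H σ := by
  obtain ⟨htr, hjf, hch1, hch2, hjj, htt, hexp, hform, h1ch, hsymm, heq, hcc, hPc, hP0⟩ := h
  set Φ : ℂ × ℝ → ℝ≥0∞ := fun x => ENNReal.ofReal ((1 + ‖x.1‖ ^ 2) ^ (-(1 + γ))) *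
    H (-x.2 - Real.log (1 + ‖x.1‖ ^ 2) - r) with hΦ
  have hΦm : Measurable Φ := by
    rw [hΦ]
    refine Measurable.mul (by fun_prop) (hH.comp (by fun_prop))
  have h1 : ∀ y : ℂ × ℝ, ENNReal.ofReal (Real.exp y.2 ^ (1 + γ) * Pk b y ^ (1 + γ)) *
      H (Real.log (Pk b y) - r) = Φ (trf b y) := by
    intro y
    have h2 : Pk b y = Real.exp (-y.2 - Real.log (1 + ‖(trf b y).1‖ ^ 2)) := by
      rw [← hexp b y]; rfl
    have h3 : (0:ℝ) < 1 + ‖(trf b y).1‖ ^ 2 := by positivity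
    rw [hΦ]
    simp only
    have h4 : (trf b y).2 = y.2 := rfl
    rw [h4, h2, Real.log_exp, ← Real.mul_rpow (Real.exp_pos _).le (Real.exp_pos _).le,
      ← Real.exp_add]
    congr 2
    have h5 : y.2 + (-y.2 - Real.log (1 + ‖(trf b y).1‖ ^ 2))
        = -Real.log (1 + ‖(trf b y).1‖ ^ 2) := by ring
    rw [h5, Real.exp_neg, Real.exp_log h3, Real.inv_rpow h3.le, Real.rpow_neg h3.le]
  simp_rw [h1]
  rw [(htr b).lintegral_comp hΦm, Measure.volume_eq_prod, lintegral_prod _ hΦm.aemeasurable]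
  have h6 : ∀ z : ℂ, ∫⁻ s : ℝ, Φ (z, s) =
      ENNReal.ofReal ((1 + ‖z‖ ^ 2) ^ (-(1 + γ))) * ∫⁻ σ, H σ := by
    intro z
    rw [hΦ]
    simp only
    have hm : Measurable (fun s : ℝ => H (-s - Real.log (1 + ‖z‖ ^ 2) - r)) :=
      hH.comp (by fun_prop)
    rw [lintegral_const_mul _ hm]
    congr 1
    have h7 : ∀ s : ℝ, H (-s - Real.log (1 + ‖z‖ ^ 2) - r)
        = H ((-Real.log (1 + ‖z‖ ^ 2) - r) - s) := by
      intro s; congr 1; ring
    simp_rw [h7]
    exact lintegral_sub_left_eq_self H _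
  simp_rw [h6]
  rw [lintegral_mul_const _ (by fun_prop)]
  rfl

theorem fam_bd (h : S_ISO) : S_FAM := by
  intro p hp
  have hiso := h
  obtain ⟨htr, hjf, hch1, hch2, hjj, htt, hexp, hform, h1ch, hsymm, heq, hcc, hPc, hP0⟩ := h
  set γ : ℝ := 1 - 2 / p with hγ
  have hp0 : 0 < p := by linarith
  have hγ0 : 0 < γ := by
    rw [hγ, sub_pos, div_lt_one hp0]; exact hp
  have hγ1 : γ < 1 := by
    rw [hγ]; have : 0 < 2 / p := by positivity
    linarith
  have hJ : JJ (1 + γ) ≠ ⊤ := JJ_ne_top (by linarith)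
  have hJ2 : JJ 2 ≠ ⊤ := JJ_ne_top (by norm_num)
  refine ⟨((JJ (1 + γ) ^ p * JJ 2) ^ (1 / p)).toReal, fun y₀ G hG hGb hGm => ?_⟩
  obtain ⟨M, hM⟩ := hGb
  have hM0 : 0 ≤ M := (norm_nonneg _).trans (hM 0)
  -- the kernel
  have hPy : ∀ y : ℂ × ℝ, Continuous fun b : ℂ => Pk b y := fun y =>
    hPc.comp (by fun_prop : Continuous fun b : ℂ => (b, y))
  have hPq : Continuous fun q : (ℂ × ℝ) × ℂ => Pk q.2 q.1 :=
    hPc.comp (by fun_prop : Continuous fun q : (ℂ × ℝ) × ℂ => (q.2, q.1))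
  have hPq0 : Continuous fun q : (ℂ × ℝ) × ℂ => Pk q.2 y₀ :=
    hPc.comp (by fun_prop : Continuous fun q : (ℂ × ℝ) × ℂ => (q.2, y₀))
  have hpow : ∀ a : ℝ, Continuous fun q : (ℂ × ℝ) × ℂ => Pk q.2 q.1 ^ a := fun a =>
    hPq.rpow_const fun q => Or.inl (hP0 _ _).ne'
  have hpow0 : ∀ a : ℝ, Continuous fun q : (ℂ × ℝ) × ℂ => Pk q.2 y₀ ^ a := fun a =>
    hPq0.rpow_const fun q => Or.inl (hP0 _ _).ne'
  have hKc : Continuous fun q : (ℂ × ℝ) × ℂ => Pk q.2 y₀ ^ (1 - γ) * Pk q.2 q.1 ^ (1 + γ) :=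
    (hpow0 _).mul (hpow _)
  have hlog : Continuous fun q : (ℂ × ℝ) × ℂ => Real.log (Pk q.2 q.1) - Real.log (Pk q.2 y₀) :=
    (hPq.log fun q => (hP0 _ _).ne').sub (hPq0.log fun q => (hP0 _ _).ne')
  have hGc : Continuous fun q : (ℂ × ℝ) × ℂ =>
      G (Real.log (Pk q.2 q.1) - Real.log (Pk q.2 y₀)) := hG.comp hlog
  have hFc : Continuous fun q : (ℂ × ℝ) × ℂ =>
      ((Pk q.2 y₀ ^ (1 - γ) * Pk q.2 q.1 ^ (1 + γ) : ℝ) : ℂ) *
        G (Real.log (Pk q.2 q.1) - Real.log (Pk q.2 y₀)) :=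
    (Complex.continuous_ofReal.comp hKc).mul hGc
  have hK0 : ∀ (y : ℂ × ℝ) (b : ℂ), 0 ≤ Pk b y₀ ^ (1 - γ) * Pk b y ^ (1 + γ) := fun y b =>
    mul_nonneg (Real.rpow_nonneg (hP0 _ _).le _) (Real.rpow_nonneg (hP0 _ _).le _)
  have hKb : ∀ (y : ℂ × ℝ) (b : ℂ), Pk b y₀ ^ (1 - γ) * Pk b y ^ (1 + γ) ≤
      Pk b y₀ ^ (2:ℝ) + Pk b y ^ (2:ℝ) := by
    intro y b
    have hu := hP0 b y₀
    have hv := hP0 b y
    rcases le_total (Pk b y₀) (Pk b y) with hc | hc
    · calc Pk b y₀ ^ (1 - γ) * Pk b y ^ (1 + γ) ≤ Pk b y ^ (1 - γ) * Pk b y ^ (1 + γ) :=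
            mul_le_mul_of_nonneg_right (Real.rpow_le_rpow hu.le hc (by linarith))
              (Real.rpow_nonneg hv.le _)
        _ = Pk b y ^ (2:ℝ) := by rw [← Real.rpow_add hv]; congr 1; ring
        _ ≤ _ := by have := Real.rpow_nonneg hu.le 2; linarith
    · calc Pk b y₀ ^ (1 - γ) * Pk b y ^ (1 + γ) ≤ Pk b y₀ ^ (1 - γ) * Pk b y₀ ^ (1 + γ) :=
            mul_le_mul_of_nonneg_left (Real.rpow_le_rpow hv.le hc (by linarith))
              (Real.rpow_nonneg hu.le _)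
        _ = Pk b y₀ ^ (2:ℝ) := by rw [← Real.rpow_add hu]; congr 1; ring
        _ ≤ _ := by have := Real.rpow_nonneg hv.le 2; linarith
  have hP2 : ∀ y : ℂ × ℝ, ∫⁻ b : ℂ, ENNReal.ofReal (Pk b y ^ (2:ℝ)) = JJ 2 := by
    intro y
    rw [Pk_int, sub_self, Real.rpow_zero, ENNReal.ofReal_one, one_mul]
  have hKi : ∀ y : ℂ × ℝ, Integrable fun b : ℂ => Pk b y₀ ^ (1 - γ) * Pk b y ^ (1 + γ) := by
    intro y
    have hc : Continuous fun b : ℂ => Pk b y₀ ^ (1 - γ) * Pk b y ^ (1 + γ) :=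
      ((hPy y₀).rpow_const fun b => Or.inl (hP0 _ _).ne').mul
        ((hPy y).rpow_const fun b => Or.inl (hP0 _ _).ne')
    refine ⟨hc.aestronglyMeasurable, ?_⟩
    rw [hasFiniteIntegral_iff_ofReal (Eventually.of_forall fun b => hK0 y b)]
    calc ∫⁻ b : ℂ, ENNReal.ofReal (Pk b y₀ ^ (1 - γ) * Pk b y ^ (1 + γ))
        ≤ ∫⁻ b : ℂ, (ENNReal.ofReal (Pk b y₀ ^ (2:ℝ)) + ENNReal.ofReal (Pk b y ^ (2:ℝ))) := by
          refine lintegral_mono fun b => ?_
          rw [← ENNReal.ofReal_add (Real.rpow_nonneg (hP0 _ _).le _)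
            (Real.rpow_nonneg (hP0 _ _).le _)]
          exact ENNReal.ofReal_le_ofReal (hKb y b)
      _ = JJ 2 + JJ 2 := by
          have hm : Measurable fun b : ℂ => ENNReal.ofReal (Pk b y₀ ^ (2:ℝ)) :=
            ((hPy y₀).measurable.pow_const 2).ennreal_ofReal
          rw [lintegral_add_left hm, hP2, hP2]
      _ < ⊤ := ENNReal.add_lt_top.2 ⟨hJ2.lt_top, hJ2.lt_top⟩
  have hint : ∀ y, Integrable fun b : ℂ => ((Pk b y₀ ^ (1 - γ) * Pk b y ^ (1 + γ) : ℝ) : ℂ) *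
      G (Real.log (Pk b y) - Real.log (Pk b y₀)) := by
    intro y
    have hc : Continuous fun b : ℂ => ((Pk b y₀ ^ (1 - γ) * Pk b y ^ (1 + γ) : ℝ) : ℂ) *
        G (Real.log (Pk b y) - Real.log (Pk b y₀)) := by
      have hc1 : Continuous fun b : ℂ => Pk b y₀ ^ (1 - γ) * Pk b y ^ (1 + γ) :=
        ((hPy y₀).rpow_const fun b => Or.inl (hP0 _ _).ne').mul
          ((hPy y).rpow_const fun b => Or.inl (hP0 _ _).ne')
      have hc2 : Continuous fun b : ℂ => Real.log (Pk b y) - Real.log (Pk b y₀) :=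
        ((hPy y).log fun b => (hP0 _ _).ne').sub ((hPy y₀).log fun b => (hP0 _ _).ne')
      exact (Complex.continuous_ofReal.comp hc1).mul (hG.comp hc2)
    refine Integrable.mono' ((hKi y).mul_const M) hc.aestronglyMeasurable
      (Eventually.of_forall fun b => ?_)
    rw [norm_mul, Complex.norm_real, Real.norm_of_nonneg (hK0 y b)]
    exact mul_le_mul_of_nonneg_left (hM _) (hK0 y b)
  -- the pointwise bound
  set H : ℝ → ℝ≥0∞ := fun σ => ‖G σ‖ₑ ^ p with hH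
  have hHm : Measurable H := by
    rw [hH]; exact hG.measurable.enorm.pow_const p
  have hpt : ∀ y : ℂ × ℝ, ‖fam γ y₀ G y‖ₑ ^ p ≤ JJ (1 + γ) ^ (p - 1) *
      (ENNReal.ofReal (Real.exp y.2 ^ (1 + γ)) *
        ∫⁻ b : ℂ, ENNReal.ofReal (Pk b y ^ (1 + γ) * Pk b y₀ ^ (2:ℝ)) *
          H (Real.log (Pk b y) - Real.log (Pk b y₀))) := by
    intro y
    have hp1 : 1 < p := by linarith
    have hconj : (p / (p - 1)).HolderConjugate p :=
      (Real.HolderConjugate.conjExponent hp1).symm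
    have hp' : 0 < p / (p - 1) := by
      have : 0 < p - 1 := by linarith
      positivity
    set f : ℂ → ℝ≥0∞ := fun b => ENNReal.ofReal (Pk b y ^ ((1 + γ) / (p / (p - 1)))) with hf
    set g : ℂ → ℝ≥0∞ := fun b => ENNReal.ofReal (Pk b y ^ ((1 + γ) / p) * Pk b y₀ ^ (1 - γ)) *
      ‖G (Real.log (Pk b y) - Real.log (Pk b y₀))‖ₑ with hg
    have hfm : Measurable f := ((hPy y).measurable.pow_const _).ennreal_ofReal
    have hgm : Measurable g := by
      have m1 : Measurable fun b : ℂ => ENNReal.ofReal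
          (Pk b y ^ ((1 + γ) / p) * Pk b y₀ ^ (1 - γ)) :=
        (((hPy y).measurable.pow_const _).mul
          ((hPy y₀).measurable.pow_const _)).ennreal_ofReal
      have m2 : Measurable fun b : ℂ => Real.log (Pk b y) - Real.log (Pk b y₀) :=
        (Real.measurable_log.comp (hPy y).measurable).sub
          (Real.measurable_log.comp (hPy y₀).measurable)
      have m3 : Measurable fun b : ℂ => ‖G (Real.log (Pk b y) - Real.log (Pk b y₀))‖ₑ :=
        (hG.measurable.comp m2).enorm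
      exact m1.mul m3
    have h1 : ‖fam γ y₀ G y‖ₑ ≤ ∫⁻ b, (f * g) b := by
      refine (enorm_integral_le_lintegral_enorm _).trans (le_of_eq ?_)
      refine lintegral_congr fun b => ?_
      have hu := hP0 b y
      simp only [Pi.mul_apply, hf, hg]
      rw [enorm_mul, ← mul_assoc, ← ENNReal.ofReal_mul (Real.rpow_nonneg hu.le _), ← mul_assoc,
        ← Real.rpow_add hu]
      congr 1
      have e1 : (1 + γ) / (p / (p - 1)) + (1 + γ) / p = 1 + γ := by
        have : p - 1 ≠ 0 := by linarith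
        field_simp
        ring
      rw [e1]
      have h2 : ‖((Pk b y₀ ^ (1 - γ) * Pk b y ^ (1 + γ) : ℝ) : ℂ)‖ₑ
          = ENNReal.ofReal (Pk b y₀ ^ (1 - γ) * Pk b y ^ (1 + γ)) := by
        rw [← ofReal_norm, Complex.norm_real, Real.norm_of_nonneg (hK0 y b)]
      rw [h2, mul_comm (Pk b y₀ ^ (1 - γ))]
    have h2 := h1.trans (ENNReal.lintegral_mul_le_Lp_mul_Lq volume hconj hfm.aemeasurable
      hgm.aemeasurable)
    have h3 : ∀ b, f b ^ (p / (p - 1)) = ENNReal.ofReal (Pk b y ^ (1 + γ)) := by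
      intro b
      simp only [hf]
      rw [ENNReal.ofReal_rpow_of_nonneg (Real.rpow_nonneg (hP0 _ _).le _) hp'.le,
        ← Real.rpow_mul (hP0 _ _).le]
      congr 2
      have : p - 1 ≠ 0 := by linarith
      field_simp
    have h4 : ∀ b, g b ^ p = ENNReal.ofReal (Pk b y ^ (1 + γ) * Pk b y₀ ^ (2:ℝ)) *
        H (Real.log (Pk b y) - Real.log (Pk b y₀)) := by
      intro b
      simp only [hg, hH]
      rw [ENNReal.mul_rpow_of_nonneg _ _ hp0.le,
        ENNReal.ofReal_rpow_of_nonneg (mul_nonneg (Real.rpow_nonneg (hP0 _ _).le _)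
          (Real.rpow_nonneg (hP0 _ _).le _)) hp0.le,
        Real.mul_rpow (Real.rpow_nonneg (hP0 _ _).le _) (Real.rpow_nonneg (hP0 _ _).le _),
        ← Real.rpow_mul (hP0 _ _).le, ← Real.rpow_mul (hP0 _ _).le]
      congr 3
      · congr 1; field_simp
      · congr 1; rw [hγ]; field_simp; ring
    simp_rw [h3, h4] at h2
    rw [Pk_int] at h2
    have h5 := ENNReal.rpow_le_rpow h2 hp0.le
    refine h5.trans (le_of_eq ?_)
    rw [ENNReal.mul_rpow_of_nonneg _ _ hp0.le, ← ENNReal.rpow_mul, ← ENNReal.rpow_mul,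
      one_div_mul_cancel hp0.ne', ENNReal.rpow_one]
    have e2 : 1 / (p / (p - 1)) * p = p - 1 := by
      have : p - 1 ≠ 0 := by linarith
      field_simp
    rw [e2, ENNReal.mul_rpow_of_nonneg _ _ (by linarith : 0 ≤ p - 1),
      ENNReal.ofReal_rpow_of_nonneg (Real.rpow_nonneg (Real.exp_pos _).le _) (by linarith),
      ← Real.rpow_mul (Real.exp_pos _).le]
    have e3 : (2 - (1 + γ)) * (p - 1) = 1 + γ := by
      rw [hγ]; field_simp; ring
    rw [e3]
    ring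
  -- integration
  have htot : ∫⁻ y : ℂ × ℝ, ‖fam γ y₀ G y‖ₑ ^ p ≤
      JJ (1 + γ) ^ p * JJ 2 * ∫⁻ σ, ‖G σ‖ₑ ^ p := by
    have hm2 : Measurable fun q : (ℂ × ℝ) × ℂ => ENNReal.ofReal (Pk q.2 y₀ ^ (2:ℝ)) *
        (ENNReal.ofReal (Real.exp q.1.2 ^ (1 + γ) * Pk q.2 q.1 ^ (1 + γ)) *
          H (Real.log (Pk q.2 q.1) - Real.log (Pk q.2 y₀))) := by
      refine Measurable.mul (hpow0 _).measurable.ennreal_ofReal (Measurable.mul ?_ ?_)
      · refine (Measurable.mul ?_ (hpow _).measurable).ennreal_ofReal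
        fun_prop
      · exact hHm.comp hlog.measurable
    calc ∫⁻ y : ℂ × ℝ, ‖fam γ y₀ G y‖ₑ ^ p
        ≤ ∫⁻ y : ℂ × ℝ, JJ (1 + γ) ^ (p - 1) * ∫⁻ b : ℂ, ENNReal.ofReal (Pk b y₀ ^ (2:ℝ)) *
            (ENNReal.ofReal (Real.exp y.2 ^ (1 + γ) * Pk b y ^ (1 + γ)) *
              H (Real.log (Pk b y) - Real.log (Pk b y₀))) := by
          refine lintegral_mono fun y => (hpt y).trans (le_of_eq ?_)
          congr 1
          rw [← lintegral_const_mul]
          · refine lintegral_congr fun b => ?_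
            rw [ENNReal.ofReal_mul (Real.rpow_nonneg (hP0 _ _).le _),
              ENNReal.ofReal_mul (Real.rpow_nonneg (Real.exp_pos _).le _)]
            ring
          · refine Measurable.mul ?_ ?_
            · exact (((hPy y).measurable.pow_const _).mul
                ((hPy y₀).measurable.pow_const _)).ennreal_ofReal
            · refine hHm.comp ?_
              exact (Real.measurable_log.comp (hPy y).measurable).sub
                (Real.measurable_log.comp (hPy y₀).measurable)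
      _ = JJ (1 + γ) ^ (p - 1) * ∫⁻ b : ℂ, ∫⁻ y : ℂ × ℝ, ENNReal.ofReal (Pk b y₀ ^ (2:ℝ)) *
            (ENNReal.ofReal (Real.exp y.2 ^ (1 + γ) * Pk b y ^ (1 + γ)) *
              H (Real.log (Pk b y) - Real.log (Pk b y₀))) := by
          rw [lintegral_const_mul, lintegral_lintegral_swap hm2.aemeasurable]
          exact hm2.lintegral_prod_right'
      _ = JJ (1 + γ) ^ (p - 1) * (JJ 2 * (JJ (1 + γ) * ∫⁻ σ, H σ)) := by
          congr 1
          have h6 : ∀ b : ℂ, ∫⁻ y : ℂ × ℝ, ENNReal.ofReal (Pk b y₀ ^ (2:ℝ)) *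
            (ENNReal.ofReal (Real.exp y.2 ^ (1 + γ) * Pk b y ^ (1 + γ)) *
              H (Real.log (Pk b y) - Real.log (Pk b y₀)))
              = ENNReal.ofReal (Pk b y₀ ^ (2:ℝ)) * (JJ (1 + γ) * ∫⁻ σ, H σ) := by
            intro b
            have hPb : Continuous fun y : ℂ × ℝ => Pk b y :=
              hPc.comp (by fun_prop : Continuous fun y : ℂ × ℝ => (b, y))
            rw [lintegral_const_mul, Pk_y_int hiso γ b _ H hHm]
            refine Measurable.mul ?_ ?_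
            · refine (Measurable.mul (by fun_prop) (hPb.measurable.pow_const _)).ennreal_ofReal
            · refine hHm.comp ((Real.measurable_log.comp hPb.measurable).sub_const _)
          simp_rw [h6]
          rw [lintegral_mul_const _ ((hPy y₀).measurable.pow_const 2).ennreal_ofReal, hP2]
      _ = JJ (1 + γ) ^ p * JJ 2 * ∫⁻ σ, H σ := by
          have h7 : JJ (1 + γ) ^ p = JJ (1 + γ) ^ (p - 1) * JJ (1 + γ) := by
            have h8 : JJ (1 + γ) ^ (p - 1) * JJ (1 + γ) ^ (1:ℝ) = JJ (1 + γ) ^ (p - 1 + 1) :=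
              (ENNReal.rpow_add_of_nonneg _ _ (by linarith) zero_le_one).symm
            rw [ENNReal.rpow_one] at h8
            rw [h8]; congr 1; ring
          rw [h7]; ring
  have hpe : (ENNReal.ofReal p).toReal = p := ENNReal.toReal_ofReal hp0.le
  have hpne : ENNReal.ofReal p ≠ 0 := by
    rw [ne_eq, ENNReal.ofReal_eq_zero, not_le]; exact hp0
  have hC : (JJ (1 + γ) ^ p * JJ 2) ^ (1 / p) ≠ ⊤ :=
    ENNReal.rpow_ne_top_of_nonneg (by positivity)
      (ENNReal.mul_ne_top (ENNReal.rpow_ne_top_of_nonneg hp0.le hJ) hJ2)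
  have hnorm : eLpNorm (fam γ y₀ G) (ENNReal.ofReal p) volume ≤
      ENNReal.ofReal ((JJ (1 + γ) ^ p * JJ 2) ^ (1 / p)).toReal *
        eLpNorm G (ENNReal.ofReal p) volume := by
    rw [ENNReal.ofReal_toReal hC, eLpNorm_eq_lintegral_rpow_enorm_toReal hpne ENNReal.ofReal_ne_top,
      eLpNorm_eq_lintegral_rpow_enorm_toReal hpne ENNReal.ofReal_ne_top, hpe,
      ← ENNReal.mul_rpow_of_nonneg _ _ (by positivity : 0 ≤ 1 / p)]
    exact ENNReal.rpow_le_rpow htot (by positivity)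
  have hsm : StronglyMeasurable (fam γ y₀ G) := by
    have h9 : StronglyMeasurable fun q : (ℂ × ℝ) × ℂ =>
      ((Pk q.2 y₀ ^ (1 - γ) * Pk q.2 q.1 ^ (1 + γ) : ℝ) : ℂ) *
        G (Real.log (Pk q.2 q.1) - Real.log (Pk q.2 y₀)) := hFc.stronglyMeasurable
    exact h9.integral_prod_right'
  refine ⟨hint, ⟨hsm.aestronglyMeasurable, ?_⟩, hnorm⟩
  exact hnorm.trans_lt (ENNReal.mul_lt_top ENNReal.ofReal_lt_top hGm.2)

end Pool.Agent.Q111.HM
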