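import Mathlib
import Pool.Agent.Q76.HM.Stm

/-!
# RLB: decay of the sup norm by the second derivative test of van der Corput
-/

set_option autoImplicit false

open MeasureTheory Filter Topology Set intervalIntegral

namespace Pool.Agent.Q111.HM

/-- van der Corput's second derivative test with a smooth amplitude. -/
lemma vdc {α β : ℝ} (hαβ : α ≤ β) (f f1 f2 p p1 : ℝ → ℝ) (hf : ∀ x, HasDerivAt f (f1 x) x)
    (hf1 : ∀ x, HasDerivAt f1 (f2 x) x) (hf2 : Continuous f2)
    (hp : ∀ x, HasDerivAt p (p1 x) x) (hp1 : Continuous p1) (P P1 l : ℝ) (hl : 0 < l)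
    (hP : ∀ x ∈ Icc α β, |p x| ≤ P) (hP1 : ∀ x ∈ Icc α β, |p1 x| ≤ P1)
    (hlow : ∀ x ∈ Icc α β, l ≤ f2 x) :
    ‖∫ x in α..β, (p x : ℂ) * Complex.exp (Complex.I * (f x : ℂ))‖ ≤
      (P + 2 * Real.pi * P + (β - α) * P1) / Real.sqrt l := by
  set δ : ℝ := Real.sqrt l with hδ
  have hδ0 : 0 < δ := Real.sqrt_pos.2 hl
  have hδ2 : δ ^ 2 = l := Real.sq_sqrt hl.le
  have hfc : Continuous f := continuous_iff_continuousAt.2 fun x => (hf x).continuousAt
  have hf1c : Continuous f1 := continuous_iff_continuousAt.2 fun x => (hf1 x).continuousAt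
  have hpc : Continuous p := continuous_iff_continuousAt.2 fun x => (hp x).continuousAt
  have hD0 : ∀ x, 0 < f1 x ^ 2 + δ ^ 2 := fun x => by positivity
  have hDne : ∀ x, f1 x ^ 2 + δ ^ 2 ≠ 0 := fun x => (hD0 x).ne'
  have hP0 : 0 ≤ P := (abs_nonneg _).trans (hP α (left_mem_Icc.2 hαβ))
  have hP10 : 0 ≤ P1 := (abs_nonneg _).trans (hP1 α (left_mem_Icc.2 hαβ))
  -- the regularised inverse of the derivative
  set g : ℝ → ℝ := fun x => f1 x / (f1 x ^ 2 + δ ^ 2) with hg
  set g1 : ℝ → ℝ := fun x => (f2 x * (f1 x ^ 2 + δ ^ 2) - f1 x * (2 * f1 x * f2 x)) /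
    (f1 x ^ 2 + δ ^ 2) ^ 2 with hg1
  have hgd : ∀ x, HasDerivAt g (g1 x) x := by
    intro x
    have h1 : HasDerivAt (fun x => f1 x ^ 2 + δ ^ 2) (2 * f1 x * f2 x) x := by
      have := ((hf1 x).pow 2).add_const (δ ^ 2)
      simpa using this
    exact (hf1 x).div h1 (hDne x)
  have hgb : ∀ x, |g x| ≤ 1 / (2 * δ) := by
    intro x
    rw [hg]
    simp only
    rw [abs_div, abs_of_pos (hD0 x), div_le_div_iff₀ (hD0 x) (by positivity)]
    nlinarith [sq_nonneg (|f1 x| - δ), sq_abs (f1 x)]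
  have hg1b : ∀ x ∈ Icc α β, |g1 x| ≤ f2 x / (f1 x ^ 2 + δ ^ 2) := by
    intro x hx
    have h2 : 0 ≤ f2 x := hl.le.trans (hlow x hx)
    have h3 : g1 x = (f2 x / (f1 x ^ 2 + δ ^ 2)) * ((δ ^ 2 - f1 x ^ 2) / (f1 x ^ 2 + δ ^ 2)) := by
      rw [hg1]
      simp only
      field_simp
      ring
    rw [h3, abs_mul, abs_of_nonneg (by positivity : 0 ≤ f2 x / (f1 x ^ 2 + δ ^ 2))]
    refine mul_le_of_le_one_right (by positivity) ?_
    rw [abs_div, abs_of_pos (hD0 x), div_le_one (hD0 x), abs_le]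
    constructor <;> nlinarith [sq_nonneg (f1 x), sq_nonneg δ]
  -- the arctan primitive
  have hat : ∀ x, HasDerivAt (fun x => Real.arctan (f1 x / δ) / δ) (f2 x / (f1 x ^ 2 + δ ^ 2)) x := by
    intro x
    have h1 := (((hf1 x).div_const δ).arctan).div_const δ
    have h2 : f2 x / (f1 x ^ 2 + δ ^ 2) = 1 / (1 + (f1 x / δ) ^ 2) * (f2 x / δ) / δ := by
      have h3 : 1 + (f1 x / δ) ^ 2 = (f1 x ^ 2 + δ ^ 2) / δ ^ 2 := by
        field_simp; ring
      rw [h3]
      have := hDne x
      field_simp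
    rw [h2]; exact h1
  have hatc : Continuous (fun x => f2 x / (f1 x ^ 2 + δ ^ 2)) :=
    hf2.div (by fun_prop) hDne
  have hati : ∫ x in α..β, f2 x / (f1 x ^ 2 + δ ^ 2) ≤ Real.pi / δ := by
    rw [intervalIntegral.integral_eq_sub_of_hasDerivAt (fun x _ => hat x)
      (hatc.intervalIntegrable _ _)]
    rw [← sub_div]
    refine div_le_div_of_nonneg_right ?_ hδ0.le
    have h1 := Real.arctan_lt_pi_div_two (f1 β / δ)
    have h2 := Real.neg_pi_div_two_lt_arctan (f1 α / δ)
    linarith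
  -- the primitive
  set e : ℝ → ℂ := fun x => Complex.exp (Complex.I * (f x : ℂ)) with he
  have hen : ∀ x, ‖e x‖ = 1 := by
    intro x
    rw [he]
    simp only
    rw [mul_comm, Complex.norm_exp_ofReal_mul_I]
  have hec : Continuous e := by rw [he]; fun_prop
  have hed : ∀ x, HasDerivAt e (e x * (Complex.I * (f1 x : ℂ))) x := by
    intro x
    have := ((hf x).ofReal_comp.const_mul Complex.I).cexp
    exact this
  set F : ℝ → ℂ := fun x => -Complex.I * (e x * ((g x * p x : ℝ) : ℂ)) with hF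
  set F1 : ℝ → ℂ := fun x => -Complex.I * (e x * (Complex.I * (f1 x : ℂ)) * ((g x * p x : ℝ) : ℂ) +
    e x * ((g1 x * p x + g x * p1 x : ℝ) : ℂ)) with hF1
  have hFd : ∀ x, HasDerivAt F (F1 x) x := by
    intro x
    exact ((hed x).mul (((hgd x).mul (hp x)).ofReal_comp)).const_mul (-Complex.I)
  have hgc : Continuous g := continuous_iff_continuousAt.2 fun x => (hgd x).continuousAt
  have hg1c : Continuous g1 := by
    rw [hg1]
    refine Continuous.div (by fun_prop) (by fun_prop) fun x => pow_ne_zero 2 (hDne x)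
  have hF1c : Continuous F1 := by rw [hF1]; fun_prop
  have hFi : ∫ x in α..β, F1 x = F β - F α :=
    intervalIntegral.integral_eq_sub_of_hasDerivAt (fun x _ => hFd x)
      (hF1c.intervalIntegrable _ _)
  set R : ℝ → ℂ := fun x => (p x : ℂ) * e x - F1 x with hR
  have hRc : Continuous R := by rw [hR]; fun_prop
  have hdec : ∫ x in α..β, (p x : ℂ) * e x = (F β - F α) + ∫ x in α..β, R x := by
    rw [← hFi, ← intervalIntegral.integral_add (hF1c.intervalIntegrable _ _)
      (hRc.intervalIntegrable _ _)]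
    refine intervalIntegral.integral_congr fun x _ => ?_
    simp only [hR]; ring
  have hRb : ∀ x ∈ Icc α β, ‖R x‖ ≤ 2 * P * (f2 x / (f1 x ^ 2 + δ ^ 2)) + P1 / (2 * δ) := by
    intro x hx
    have h1 : R x = e x * (((p x * (1 - f1 x * g x) : ℝ) : ℂ)
        + Complex.I * ((g1 x * p x + g x * p1 x : ℝ) : ℂ)) := by
      simp only [hR, hF1]
      push_cast
      have hI : Complex.I * Complex.I = -1 := Complex.I_mul_I
      linear_combination (e x * (f1 x : ℂ) * (g x : ℂ) * (p x : ℂ)) * hI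
    have h2 : 1 - f1 x * g x = δ ^ 2 / (f1 x ^ 2 + δ ^ 2) := by
      simp only [hg]
      field_simp
      ring
    have h3 : |p x * (1 - f1 x * g x)| ≤ P * (f2 x / (f1 x ^ 2 + δ ^ 2)) := by
      rw [h2, abs_mul, abs_of_nonneg (by positivity : 0 ≤ δ ^ 2 / (f1 x ^ 2 + δ ^ 2))]
      refine mul_le_mul (hP x hx) ?_ (by positivity) hP0
      refine div_le_div_of_nonneg_right ?_ (hD0 x).le
      rw [hδ2]; exact hlow x hx
    have h4 : |g1 x * p x + g x * p1 x| ≤ P * (f2 x / (f1 x ^ 2 + δ ^ 2)) + P1 / (2 * δ) := by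
      refine (abs_add_le _ _).trans (add_le_add ?_ ?_)
      · rw [abs_mul, mul_comm]
        exact mul_le_mul (hP x hx) (hg1b x hx) (abs_nonneg _) hP0
      · rw [abs_mul]
        calc |g x| * |p1 x| ≤ (1 / (2 * δ)) * P1 :=
              mul_le_mul (hgb x) (hP1 x hx) (abs_nonneg _) (by positivity)
          _ = P1 / (2 * δ) := by ring
    rw [h1, norm_mul, hen, one_mul]
    refine (norm_add_le _ _).trans ?_
    rw [norm_mul, Complex.norm_I, one_mul, Complex.norm_real, Complex.norm_real,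
      Real.norm_eq_abs, Real.norm_eq_abs]
    linarith
  have hFb : ∀ x ∈ Icc α β, ‖F x‖ ≤ P / (2 * δ) := by
    intro x hx
    simp only [hF]
    rw [norm_mul, norm_mul, norm_neg, Complex.norm_I, hen, one_mul, one_mul, Complex.norm_real,
      Real.norm_eq_abs, abs_mul]
    calc |g x| * |p x| ≤ (1 / (2 * δ)) * P :=
          mul_le_mul (hgb x) (hP x hx) (abs_nonneg _) (by positivity)
      _ = P / (2 * δ) := by ring
  have hRi : ‖∫ x in α..β, R x‖ ≤ 2 * P * (Real.pi / δ) + (β - α) * (P1 / (2 * δ)) := by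
    refine (intervalIntegral.norm_integral_le_of_norm_le hαβ
      (Eventually.of_forall fun x hx => hRb x ⟨hx.1.le, hx.2⟩) ?_).trans ?_
    · exact (by fun_prop : Continuous fun x => 2 * P * (f2 x / (f1 x ^ 2 + δ ^ 2)) +
        P1 / (2 * δ)).intervalIntegrable _ _
    · rw [intervalIntegral.integral_add, intervalIntegral.integral_const_mul,
        intervalIntegral.integral_const, smul_eq_mul]
      · have := mul_le_mul_of_nonneg_left hati (by positivity : 0 ≤ 2 * P)
        linarith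
      · exact (hatc.const_mul _).intervalIntegrable _ _
      · exact continuous_const.intervalIntegrable _ _
  have hmain : ‖∫ x in α..β, (p x : ℂ) * e x‖ ≤
      P / (2 * δ) + P / (2 * δ) + (2 * P * (Real.pi / δ) + (β - α) * (P1 / (2 * δ))) := by
    rw [hdec]
    refine (norm_add_le _ _).trans (add_le_add ((norm_sub_le _ _).trans (add_le_add ?_ ?_)) hRi)
    · exact hFb β (right_mem_Icc.2 hαβ)
    · exact hFb α (left_mem_Icc.2 hαβ)
  refine hmain.trans ?_
  have h5 : P / (2 * δ) + P / (2 * δ) + (2 * P * (Real.pi / δ) + (β - α) * (P1 / (2 * δ)))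
      = (P + 2 * Real.pi * P + (β - α) * P1 / 2) / δ := by
    field_simp; ring
  rw [h5]
  refine div_le_div_of_nonneg_right ?_ hδ0.le
  have : 0 ≤ (β - α) * P1 := mul_nonneg (by linarith) hP10
  linarith

/-- the same with both signs of the second derivative -/
lemma vdc2 {α β : ℝ} (hαβ : α ≤ β) (f f1 f2 p p1 : ℝ → ℝ) (hf : ∀ x, HasDerivAt f (f1 x) x)
    (hf1 : ∀ x, HasDerivAt f1 (f2 x) x) (hf2 : Continuous f2)
    (hp : ∀ x, HasDerivAt p (p1 x) x) (hp1 : Continuous p1) (P P1 l : ℝ) (hl : 0 < l)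
    (hP : ∀ x ∈ Icc α β, |p x| ≤ P) (hP1 : ∀ x ∈ Icc α β, |p1 x| ≤ P1)
    (hlow : (∀ x ∈ Icc α β, l ≤ f2 x) ∨ (∀ x ∈ Icc α β, f2 x ≤ -l)) :
    ‖∫ x in α..β, (p x : ℂ) * Complex.exp (Complex.I * (f x : ℂ))‖ ≤
      (P + 2 * Real.pi * P + (β - α) * P1) / Real.sqrt l := by
  rcases hlow with h | h
  · exact vdc hαβ f f1 f2 p p1 hf hf1 hf2 hp hp1 P P1 l hl hP hP1 h
  · have h1 := vdc hαβ (fun x => -f x) (fun x => -f1 x) (fun x => -f2 x) p p1
      (fun x => (hf x).neg) (fun x => (hf1 x).neg) hf2.neg hp hp1 P P1 l hl hP hP1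
      (fun x hx => by have := h x hx; linarith)
    have h2 : ∫ x in α..β, (p x : ℂ) * Complex.exp (Complex.I * ((-f x : ℝ) : ℂ))
        = (starRingEnd ℂ) (∫ x in α..β, (p x : ℂ) * Complex.exp (Complex.I * (f x : ℂ))) := by
      rw [intervalIntegral.integral_of_le hαβ, intervalIntegral.integral_of_le hαβ,
        ← integral_conj]
      refine integral_congr_ae (Eventually.of_forall fun x => ?_)
      simp only
      rw [map_mul, Complex.conj_ofReal, ← Complex.exp_conj, map_mul, Complex.conj_I,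
        Complex.conj_ofReal]
      congr 2
      push_cast; ring
    rw [h2, RCLike.norm_conj] at h1
    exact h1

/-- first derivative of the phase -/
noncomputable def D1 (c x : ℝ) : ℝ := 4 * (c * Real.exp (c * x) / (1 + Real.exp (c * x) ^ 2))

/-- second derivative of the phase -/
noncomputable def D2 (c x : ℝ) : ℝ :=
  4 * c ^ 2 * Real.exp (c * x) * (1 - Real.exp (c * x) ^ 2) / (1 + Real.exp (c * x) ^ 2) ^ 2

lemma hasDeriv_exp (c x : ℝ) : HasDerivAt (fun x => Real.exp (c * x)) (c * Real.exp (c * x)) x := by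
  have h := ((hasDerivAt_id x).const_mul c).exp
  simp only [id, mul_one] at h
  rw [mul_comm c]; exact h

lemma hasDeriv_psi (c x : ℝ) : HasDerivAt (Q76.HM.psi c) (D1 c x) x := by
  have h := ((hasDeriv_exp c x).arctan).const_mul 4
  have e : D1 c x = 4 * (1 / (1 + Real.exp (c * x) ^ 2) * (c * Real.exp (c * x))) := by
    rw [D1]; ring
  rw [e]; exact h

lemma hasDeriv_D1 (c x : ℝ) : HasDerivAt (D1 c) (D2 c x) x := by
  have h1 : HasDerivAt (fun x => 1 + Real.exp (c * x) ^ 2)
      (2 * Real.exp (c * x) * (c * Real.exp (c * x))) x := by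
    have := ((hasDeriv_exp c x).pow 2).const_add 1
    simpa using this
  have hne : 1 + Real.exp (c * x) ^ 2 ≠ 0 := by positivity
  have h := (((hasDeriv_exp c x).const_mul c).div h1 hne).const_mul 4
  have e : D2 c x = 4 * ((c * (c * Real.exp (c * x)) * (1 + Real.exp (c * x) ^ 2) -
      c * Real.exp (c * x) * (2 * Real.exp (c * x) * (c * Real.exp (c * x)))) /
      (1 + Real.exp (c * x) ^ 2) ^ 2) := by
    rw [D2]; ring
  rw [e]; exact h

lemma cont_D2 (c : ℝ) : Continuous (D2 c) := by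
  unfold D2
  refine Continuous.div (by fun_prop) (by fun_prop) fun x => by positivity

lemma D2_neg {c x : ℝ} (hc : 0 < c) (hx : 0 < x) : D2 c x < 0 := by
  have h1 : 1 < Real.exp (c * x) := Real.one_lt_exp_iff.2 (by positivity)
  unfold D2
  refine div_neg_of_neg_of_pos ?_ (by positivity)
  have h2 : 1 - Real.exp (c * x) ^ 2 < 0 := by nlinarith
  exact mul_neg_of_pos_of_neg (by positivity) h2

lemma D2_pos {c x : ℝ} (hc : 0 < c) (hx : x < 0) : 0 < D2 c x := by
  have h1 : Real.exp (c * x) < 1 := by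
    have h2 : Real.exp (c * x) < Real.exp 0 := Real.exp_lt_exp.2 (by nlinarith)
    rwa [Real.exp_zero] at h2
  have h0 := Real.exp_pos (c * x)
  unfold D2
  refine div_pos ?_ (by positivity)
  have h2 : 0 < 1 - Real.exp (c * x) ^ 2 := by nlinarith
  positivity

/-- a uniform lower bound of the second derivative away from zero -/
lemma lower {c α β : ℝ} (hc : 0 < c) (hαβ : α ≤ β) (h : 0 < α ∨ β < 0) :
    ∃ l : ℝ, 0 < l ∧ ((∀ x ∈ Icc α β, l ≤ D2 c x) ∨ (∀ x ∈ Icc α β, D2 c x ≤ -l)) := by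
  rcases h with h | h
  · obtain ⟨x0, hx0, hmax⟩ := isCompact_Icc.exists_isMaxOn (nonempty_Icc.2 hαβ)
      (cont_D2 c).continuousOn
    have h0 : D2 c x0 < 0 := D2_neg hc (h.trans_le hx0.1)
    refine ⟨-D2 c x0, by linarith, Or.inr fun x hx => ?_⟩
    have := hmax hx
    simp only [mem_ofPred_eq] at this
    linarith
  · obtain ⟨x0, hx0, hmin⟩ := isCompact_Icc.exists_isMinOn (nonempty_Icc.2 hαβ)
      (cont_D2 c).continuousOn
    have h0 : 0 < D2 c x0 := D2_pos hc (hx0.2.trans_lt h)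
    refine ⟨D2 c x0, h0, Or.inl fun x hx => ?_⟩
    have := hmin hx
    simpa using this

/-- decay on an interval away from zero, real continuous amplitude -/
lemma decay {c α β : ℝ} (hc : 0 < c) (hαβ : α ≤ β) (h : 0 < α ∨ β < 0) (b : ℝ → ℝ)
    (hb : Continuous b) {ε : ℝ} (hε : 0 < ε) :
    ∃ t₀ : ℝ, ∀ t : ℝ, t₀ ≤ |t| → ∀ σ : ℝ,
      ‖∫ x in α..β, (b x : ℂ) *
        Complex.exp (Complex.I * ((t * Q76.HM.psi c x + σ * x : ℝ) : ℂ))‖ ≤ ε := by
  obtain ⟨l, hl, hlow⟩ := lower hc hαβ h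
  have hba : 0 ≤ β - α := by linarith
  obtain ⟨q, hq⟩ := exists_polynomial_near_of_continuousOn α β b hb.continuousOn
    (ε / (2 * (β - α) + 2)) (by positivity)
  obtain ⟨P, hP⟩ := isCompact_Icc.exists_bound_of_continuousOn (s := Icc α β)
    (f := fun x => q.eval x) q.continuous.continuousOn
  obtain ⟨P1, hP1⟩ := isCompact_Icc.exists_bound_of_continuousOn (s := Icc α β)
    (f := fun x => q.derivative.eval x) q.derivative.continuous.continuousOn
  have hP0 : 0 ≤ P := (norm_nonneg _).trans (hP α (left_mem_Icc.2 hαβ))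
  have hP10 : 0 ≤ P1 := (norm_nonneg _).trans (hP1 α (left_mem_Icc.2 hαβ))
  set K : ℝ := P + 2 * Real.pi * P + (β - α) * P1 with hK
  have hK0 : 0 ≤ K := by
    have := Real.pi_pos
    positivity
  refine ⟨(2 * K / ε) ^ 2 / l + 1, fun t ht σ => ?_⟩
  have ht0 : 0 < |t| := lt_of_lt_of_le (by positivity) ht
  have htl : 0 < |t| * l := by positivity
  have hpc : Continuous (Q76.HM.psi c) :=
    continuous_iff_continuousAt.2 fun x => (hasDeriv_psi c x).continuousAt
  have hfd : ∀ x, HasDerivAt (fun x => t * Q76.HM.psi c x + σ * x) (t * D1 c x + σ) x := by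
    intro x
    have h8 : HasDerivAt (fun x : ℝ => σ * x) σ x := by
      have := (hasDerivAt_id x).const_mul σ
      simpa using this
    exact ((hasDeriv_psi c x).const_mul t).add h8
  have hfd1 : ∀ x, HasDerivAt (fun x => t * D1 c x + σ) (t * D2 c x) x := by
    intro x
    exact ((hasDeriv_D1 c x).const_mul t).add_const σ
  have hsign : (∀ x ∈ Icc α β, |t| * l ≤ t * D2 c x) ∨
      (∀ x ∈ Icc α β, t * D2 c x ≤ -(|t| * l)) := by
    rcases abs_cases t with ⟨h1, h2⟩ | ⟨h1, h2⟩
    · rw [h1]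
      rcases hlow with h3 | h3
      · left; intro x hx; exact mul_le_mul_of_nonneg_left (h3 x hx) h2
      · right; intro x hx
        have := mul_le_mul_of_nonneg_left (h3 x hx) h2
        linarith
    · rw [h1]
      rcases hlow with h3 | h3
      · right; intro x hx
        have := mul_le_mul_of_nonneg_left (h3 x hx) (by linarith : 0 ≤ -t)
        linarith
      · left; intro x hx
        have := mul_le_mul_of_nonneg_left (h3 x hx) (by linarith : 0 ≤ -t)
        linarith
  have h1 := vdc2 hαβ (fun x => t * Q76.HM.psi c x + σ * x) (fun x => t * D1 c x + σ)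
    (fun x => t * D2 c x) (fun x => q.eval x) (fun x => q.derivative.eval x) hfd hfd1
    ((cont_D2 c).const_mul t) (fun x => q.hasDerivAt x) q.derivative.continuous P P1 (|t| * l)
    htl (fun x hx => hP x hx) (fun x hx => hP1 x hx) hsign
  rw [← hK] at h1
  have h2 : K / Real.sqrt (|t| * l) ≤ ε / 2 := by
    rw [div_le_iff₀ (Real.sqrt_pos.2 htl)]
    have h3 : (2 * K / ε) ^ 2 ≤ |t| * l := by
      have : (2 * K / ε) ^ 2 / l ≤ |t| := by linarith
      rwa [div_le_iff₀ hl] at this
    have h4 : 2 * K / ε ≤ Real.sqrt (|t| * l) := Real.le_sqrt_of_sq_le h3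
    rw [div_le_iff₀ hε] at h4
    linarith
  have hec : Continuous (fun x => Complex.exp (Complex.I *
      ((t * Q76.HM.psi c x + σ * x : ℝ) : ℂ))) := by fun_prop
  have hsplit : ∫ x in α..β, (b x : ℂ) *
        Complex.exp (Complex.I * ((t * Q76.HM.psi c x + σ * x : ℝ) : ℂ))
      = (∫ x in α..β, ((q.eval x : ℝ) : ℂ) *
        Complex.exp (Complex.I * ((t * Q76.HM.psi c x + σ * x : ℝ) : ℂ)))
      + ∫ x in α..β, ((b x - q.eval x : ℝ) : ℂ) *
        Complex.exp (Complex.I * ((t * Q76.HM.psi c x + σ * x : ℝ) : ℂ)) := by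
    have hqc : Continuous (fun x : ℝ => ((q.eval x : ℝ) : ℂ)) :=
      Complex.continuous_ofReal.comp q.continuous
    have hqc2 : Continuous (fun x : ℝ => ((b x - q.eval x : ℝ) : ℂ)) :=
      Complex.continuous_ofReal.comp (hb.sub q.continuous)
    have hA : Continuous (fun x : ℝ => ((q.eval x : ℝ) : ℂ) *
        Complex.exp (Complex.I * ((t * Q76.HM.psi c x + σ * x : ℝ) : ℂ))) := hqc.mul hec
    have hB : Continuous (fun x : ℝ => ((b x - q.eval x : ℝ) : ℂ) *
        Complex.exp (Complex.I * ((t * Q76.HM.psi c x + σ * x : ℝ) : ℂ))) := hqc2.mul hec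
    rw [← intervalIntegral.integral_add (hA.intervalIntegrable _ _)
      (hB.intervalIntegrable _ _)]
    refine intervalIntegral.integral_congr fun x _ => ?_
    push_cast; ring
  rw [hsplit]
  refine (norm_add_le _ _).trans ?_
  have h5 : ‖∫ x in α..β, ((b x - q.eval x : ℝ) : ℂ) *
        Complex.exp (Complex.I * ((t * Q76.HM.psi c x + σ * x : ℝ) : ℂ))‖
      ≤ ε / (2 * (β - α) + 2) * |β - α| := by
    refine intervalIntegral.norm_integral_le_of_norm_le_const fun x hx => ?_
    rw [uIoc_of_le hαβ] at hx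
    rw [norm_mul, mul_comm Complex.I, Complex.norm_exp_ofReal_mul_I, mul_one, Complex.norm_real,
      Real.norm_eq_abs, abs_sub_comm]
    exact (hq x ⟨hx.1.le, hx.2⟩).le
  have h6 : ε / (2 * (β - α) + 2) * |β - α| ≤ ε / 2 := by
    rw [abs_of_nonneg hba, div_mul_eq_mul_div, div_le_iff₀ (by positivity)]
    nlinarith
  linarith

/-- decay on an interval away from zero, complex continuous amplitude -/
lemma decayC {c α β : ℝ} (hc : 0 < c) (hαβ : α ≤ β) (h : 0 < α ∨ β < 0) (a : ℝ → ℂ)
    (ha : Continuous a) {ε : ℝ} (hε : 0 < ε) :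
    ∃ t₀ : ℝ, ∀ t : ℝ, t₀ ≤ |t| → ∀ σ : ℝ,
      ‖∫ x in α..β, a x *
        Complex.exp (Complex.I * ((t * Q76.HM.psi c x + σ * x : ℝ) : ℂ))‖ ≤ ε := by
  have hre : Continuous (fun x => (a x).re) := Complex.continuous_re.comp ha
  have him : Continuous (fun x => (a x).im) := Complex.continuous_im.comp ha
  obtain ⟨t1, h1⟩ := decay hc hαβ h _ hre (half_pos hε)
  obtain ⟨t2, h2⟩ := decay hc hαβ h _ him (half_pos hε)
  have hpc : Continuous (Q76.HM.psi c) :=
    continuous_iff_continuousAt.2 fun x => (hasDeriv_psi c x).continuousAt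
  refine ⟨max t1 t2, fun t ht σ => ?_⟩
  have hec : Continuous (fun x => Complex.exp (Complex.I *
      ((t * Q76.HM.psi c x + σ * x : ℝ) : ℂ))) := by fun_prop
  have hsplit : ∫ x in α..β, a x *
        Complex.exp (Complex.I * ((t * Q76.HM.psi c x + σ * x : ℝ) : ℂ))
      = (∫ x in α..β, (((a x).re : ℝ) : ℂ) *
        Complex.exp (Complex.I * ((t * Q76.HM.psi c x + σ * x : ℝ) : ℂ)))
      + Complex.I * ∫ x in α..β, (((a x).im : ℝ) : ℂ) *
        Complex.exp (Complex.I * ((t * Q76.HM.psi c x + σ * x : ℝ) : ℂ)) := by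
    have hA : Continuous (fun x : ℝ => (((a x).re : ℝ) : ℂ) *
        Complex.exp (Complex.I * ((t * Q76.HM.psi c x + σ * x : ℝ) : ℂ))) :=
      (Complex.continuous_ofReal.comp hre).mul hec
    have hB : Continuous (fun x : ℝ => Complex.I * ((((a x).im : ℝ) : ℂ) *
        Complex.exp (Complex.I * ((t * Q76.HM.psi c x + σ * x : ℝ) : ℂ)))) :=
      continuous_const.mul ((Complex.continuous_ofReal.comp him).mul hec)
    rw [← intervalIntegral.integral_const_mul,
      ← intervalIntegral.integral_add (hA.intervalIntegrable _ _)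
        (hB.intervalIntegrable _ _)]
    refine intervalIntegral.integral_congr fun x _ => ?_
    conv_lhs => rw [← Complex.re_add_im (a x)]
    ring
  rw [hsplit]
  refine (norm_add_le _ _).trans ?_
  rw [norm_mul, Complex.norm_I, one_mul]
  have h3 := h1 t ((le_max_left _ _).trans ht) σ
  have h4 := h2 t ((le_max_right _ _).trans ht) σ
  linarith

theorem rlb : Q76.HM.S_RLB := by
  intro c hc a ha hsup ε hε
  obtain ⟨M, hM⟩ := ha.bounded_above_of_compact_support hsup
  obtain ⟨R, hR⟩ := hsup.isBounded.subset_closedBall 0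
  set R' : ℝ := max R 1 with hR'
  have hR1 : 1 ≤ R' := le_max_right _ _
  have hM0 : 0 ≤ M := (norm_nonneg _).trans (hM 0)
  set η : ℝ := min 1 (ε / (6 * (M + 1))) with hη
  have hη0 : 0 < η := lt_min one_pos (by positivity)
  have hη1 : η ≤ 1 := min_le_left _ _
  have hηM : η * (6 * (M + 1)) ≤ ε := by
    have := min_le_right (1:ℝ) (ε / (6 * (M + 1)))
    rw [← hη] at this
    rwa [le_div_iff₀ (by positivity)] at this
  obtain ⟨t1, h1⟩ := decayC hc (by linarith : η ≤ R') (Or.inl hη0) a ha (ε := ε / 3) (by positivity)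
  obtain ⟨t2, h2⟩ := decayC hc (by linarith : -R' ≤ -η) (Or.inr (by linarith)) a ha
    (ε := ε / 3) (by positivity)
  have hpc : Continuous (Q76.HM.psi c) :=
    continuous_iff_continuousAt.2 fun x => (hasDeriv_psi c x).continuousAt
  refine ⟨max t1 t2, fun t ht σ => ?_⟩
  have hzero : ∀ x, R' < |x| → a x = 0 := by
    intro x hx
    by_contra hne
    have h3 : x ∈ tsupport a := subset_tsupport _ hne
    have h4 := hR h3
    rw [Metric.mem_closedBall, dist_zero_right, Real.norm_eq_abs] at h4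
    have := le_max_left R 1
    linarith
  set G : ℝ → ℂ := fun x => a x *
    Complex.exp (Complex.I * ((t * Q76.HM.psi c x + σ * x : ℝ) : ℂ)) with hG
  have hGc : Continuous G := by rw [hG]; fun_prop
  have hGG : Q76.HM.GG (Q76.HM.ph c t a) σ = ∫ x, G x := by
    unfold Q76.HM.GG Q76.HM.ph
    refine integral_congr_ae (Eventually.of_forall fun x => ?_)
    simp only [hG]
    rw [mul_assoc, ← Complex.exp_add]
    congr 2
    push_cast; ring
  have hint : ∫ x, G x = ∫ x in (-R')..R', G x := by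
    rw [intervalIntegral.integral_of_le (by linarith)]
    symm
    refine setIntegral_eq_integral_of_ae_compl_eq_zero ?_
    have hnull : ∀ᵐ x : ℝ, x ≠ -R' := by
      rw [ae_iff]; simp
    filter_upwards [hnull] with x hx1 hx2
    have h3 : R' < |x| := by
      by_contra hcon
      push Not at hcon
      rw [abs_le] at hcon
      exact hx2 ⟨lt_of_le_of_ne hcon.1 (Ne.symm hx1), hcon.2⟩
    simp only [hG, hzero x h3, zero_mul]
  have hsplit : ∫ x in (-R')..R', G x = (∫ x in (-R')..(-η), G x) + (∫ x in (-η)..η, G x)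
      + ∫ x in η..R', G x := by
    rw [intervalIntegral.integral_add_adjacent_intervals, 
      intervalIntegral.integral_add_adjacent_intervals] <;> exact hGc.intervalIntegrable _ _
  rw [hGG, hint, hsplit]
  have h3 := h1 t ((le_max_left _ _).trans ht) σ
  have h4 := h2 t ((le_max_right _ _).trans ht) σ
  have h5 : ‖∫ x in (-η)..η, G x‖ ≤ M * |η - -η| := by
    refine intervalIntegral.norm_integral_le_of_norm_le_const fun x _ => ?_
    simp only [hG]
    rw [norm_mul, mul_comm Complex.I, Complex.norm_exp_ofReal_mul_I, mul_one]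
    exact hM x
  have h6 : M * |η - -η| ≤ ε / 3 := by
    rw [abs_of_nonneg (by linarith)]
    nlinarith
  refine (norm_add₃_le).trans ?_
  linarith

end Pool.Agent.Q111.HM
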